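import Mathlib
import Pool.Agent.R229.Interp

/-!
# An affine-algebraic manifold with a tame set and a transitive algebraic automorphism group that is
not algebraically flexible

The surface `x₀ x₁ = 1`, `x₂ x₃ = 1` in `ℂ⁴` (that is, `(ℂ \ {0})²`) is a smooth connected affine
algebraic surface with a tame set, the group of its algebraic automorphisms acts transitively, and
all regular actions of the additive group on it are trivial. So it is not algebraically flexible,
and the first question has a negative answer.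
-/

set_option autoImplicit false

namespace Pool.Agent.Results.MP_acc6f5_ag.TorusNotFlexible

open MvPolynomial Filter Topology

/-- `X` is a closed algebraic subset of `ℂ^N`, smooth of dimension `d`: near each of its points it is
the set of the common zeros of `N - d` polynomials which vanish on `X` and whose differentials at the
point are linearly independent. -/
def IsSmoothAffine {N : ℕ} (d : ℕ) (X : Set (Fin N → ℂ)) : Prop :=
  d ≤ N ∧ (∃ S : Set (MvPolynomial (Fin N) ℂ), X = {x | ∀ p ∈ S, eval x p = 0}) ∧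
    ∀ x ∈ X, ∃ g : Fin (N - d) → MvPolynomial (Fin N) ℂ,
      (∀ j, ∀ y ∈ X, eval y (g j) = 0) ∧
      LinearIndependent ℂ (fun j : Fin (N - d) => (fun i : Fin N => eval x (pderiv i (g j)))) ∧
      ∀ᶠ y in 𝓝 x, (∀ j, eval y (g j) = 0) → y ∈ X

/-- the tangent space of `X` at `x`: the vectors killed by the differentials at `x` of all the
polynomials which vanish on `X` -/
def tangent {N : ℕ} (X : Set (Fin N → ℂ)) (x : Fin N → ℂ) : Set (Fin N → ℂ) :=
  {v | ∀ p : MvPolynomial (Fin N) ℂ, (∀ y ∈ X, eval y p = 0) → ∑ i, eval x (pderiv i p) * v i = 0}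

/-- `F` is holomorphic on `X`: locally it is the restriction of a holomorphic map defined on an open
set of `ℂ^N` -/
def HolomorphicOn {N : ℕ} (X : Set (Fin N → ℂ)) (F : (Fin N → ℂ) → (Fin N → ℂ)) : Prop :=
  ∀ x ∈ X, ∃ U : Set (Fin N → ℂ), IsOpen U ∧ x ∈ U ∧ ∃ G : (Fin N → ℂ) → (Fin N → ℂ),
    DifferentiableOn ℂ G U ∧ ∀ y ∈ X ∩ U, F y = G y

/-- `F` is regular on `X`: it is given by polynomials -/
def RegularOn {N : ℕ} (X : Set (Fin N → ℂ)) (F : (Fin N → ℂ) → (Fin N → ℂ)) : Prop :=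
  ∃ P : Fin N → MvPolynomial (Fin N) ℂ, ∀ x ∈ X, F x = fun i => eval x (P i)

/-- `F` and `G` map `X` to `X` and are inverse to each other on `X` -/
def InverseOn {N : ℕ} (X : Set (Fin N → ℂ)) (F G : (Fin N → ℂ) → (Fin N → ℂ)) : Prop :=
  (∀ x ∈ X, F x ∈ X) ∧ (∀ x ∈ X, G x ∈ X) ∧ (∀ x ∈ X, G (F x) = x) ∧ ∀ x ∈ X, F (G x) = x

/-- `F` is (on `X`) a holomorphic automorphism of `X` -/
def IsHolAut {N : ℕ} (X : Set (Fin N → ℂ)) (F : (Fin N → ℂ) → (Fin N → ℂ)) : Prop :=
  ∃ G, InverseOn X F G ∧ HolomorphicOn X F ∧ HolomorphicOn X G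

/-- `F` is (on `X`) an algebraic automorphism of `X` -/
def IsAlgAut {N : ℕ} (X : Set (Fin N → ℂ)) (F : (Fin N → ℂ) → (Fin N → ℂ)) : Prop :=
  ∃ G, InverseOn X F G ∧ RegularOn X F ∧ RegularOn X G

/-- `A` is a tame set in `X`: a closed, discrete, infinite subset of `X` such that each injective map
`A → A` is the restriction of a holomorphic automorphism of `X` -/
def IsTame {N : ℕ} (X A : Set (Fin N → ℂ)) : Prop :=
  A ⊆ X ∧ IsClosed A ∧ DiscreteTopology A ∧ A.Infinite ∧
    ∀ f : A → A, Function.Injective f → ∃ F, IsHolAut X F ∧ ∀ a : A, F a = f a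

/-- the group of the algebraic automorphisms acts transitively on `X` -/
def AlgTransitive {N : ℕ} (X : Set (Fin N → ℂ)) : Prop :=
  ∀ x ∈ X, ∀ y ∈ X, ∃ F, IsAlgAut X F ∧ F x = y

/-- `Φ` is a regular action of the additive group `(ℂ, +)` on `X`: it is given by polynomials in the
time and the coordinates -/
def IsGaAction {N : ℕ} (X : Set (Fin N → ℂ)) (Φ : ℂ → (Fin N → ℂ) → (Fin N → ℂ)) : Prop :=
  (∀ t, ∀ x ∈ X, Φ t x ∈ X) ∧ (∀ x ∈ X, Φ 0 x = x) ∧
    (∀ s t, ∀ x ∈ X, Φ (s + t) x = Φ s (Φ t x)) ∧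
    ∃ P : Fin N → MvPolynomial (Fin (N + 1)) ℂ,
      ∀ t, ∀ x ∈ X, Φ t x = fun i => eval (Fin.cons t x : Fin (N + 1) → ℂ) (P i)

/-- `X` is algebraically flexible: at each point the tangent space is spanned by the tangent vectors
of the orbits of the regular actions of the additive group on `X` -/
def AlgFlexible {N : ℕ} (X : Set (Fin N → ℂ)) : Prop :=
  ∀ x ∈ X, tangent X x ⊆
    Submodule.span ℂ {v : Fin N → ℂ | ∃ Φ, IsGaAction X Φ ∧ HasDerivAt (fun t => Φ t x) v 0}

section proof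

/-- the surface -/
def T : Set (Fin 4 → ℂ) := {x | x 0 * x 1 = 1 ∧ x 2 * x 3 = 1}

lemma isClosed_T : IsClosed T := by
  have h1 : IsClosed {x : Fin 4 → ℂ | x 0 * x 1 = 1} :=
    isClosed_eq (by fun_prop) continuous_const
  have h2 : IsClosed {x : Fin 4 → ℂ | x 2 * x 3 = 1} :=
    isClosed_eq (by fun_prop) continuous_const
  exact h1.inter h2

lemma smooth_T : IsSmoothAffine 2 T := by
  refine ⟨by norm_num, ⟨{X 0 * X 1 - 1, X 2 * X 3 - 1}, ?_⟩, fun x hx => ?_⟩
  · ext x
    simp [T, sub_eq_zero]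
  · refine ⟨![X 0 * X 1 - 1, X 2 * X 3 - 1], ?_, ?_, ?_⟩
    · intro j y hy
      obtain ⟨h1, h2⟩ := hy
      fin_cases j
      · simp [h1]
      · simp [h2]
    · have h0 : x 1 ≠ 0 := by
        intro h
        have := hx.1
        rw [h, mul_zero] at this
        exact zero_ne_one this
      have h3 : x 3 ≠ 0 := by
        intro h
        have := hx.2
        rw [h, mul_zero] at this
        exact zero_ne_one this
      have h : LinearIndependent ℂ (![fun i : Fin 4 => eval x (pderiv i (X 0 * X 1 - 1 : MvPolynomial (Fin 4) ℂ)),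
          fun i : Fin 4 => eval x (pderiv i (X 2 * X 3 - 1 : MvPolynomial (Fin 4) ℂ))] : Fin 2 → Fin 4 → ℂ) := by
        rw [LinearIndependent.pair_iff]
        intro s t hst
        have e0 := congrFun hst 0
        have e2 := congrFun hst 2
        simp [pderiv_X, Pi.single_apply, Derivation.leibniz] at e0 e2
        constructor
        · exact e0.resolve_right h0
        · exact e2.resolve_right h3
      have he : (fun j : Fin (4 - 2) => (fun i : Fin 4 => eval x (pderiv i
          ((![X 0 * X 1 - 1, X 2 * X 3 - 1] : Fin (4 - 2) → MvPolynomial (Fin 4) ℂ) j)))) =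
          (![fun i : Fin 4 => eval x (pderiv i (X 0 * X 1 - 1 : MvPolynomial (Fin 4) ℂ)),
          fun i : Fin 4 => eval x (pderiv i (X 2 * X 3 - 1 : MvPolynomial (Fin 4) ℂ))] : Fin 2 → Fin 4 → ℂ) := by
        funext j
        fin_cases j <;> rfl
      exact he ▸ h
    · refine Eventually.of_forall fun y hy => ?_
      have e0 := hy 0
      have e1 := hy 1
      simp [sub_eq_zero] at e0 e1
      exact ⟨e0, e1⟩

/-- parametrisation -/
noncomputable def par (w : ℂ × ℂ) : Fin 4 → ℂ :=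
  ![Complex.exp w.1, Complex.exp (-w.1), Complex.exp w.2, Complex.exp (-w.2)]

lemma par_mem (w : ℂ × ℂ) : par w ∈ T := by
  constructor
  · show Complex.exp w.1 * Complex.exp (-w.1) = 1
    rw [← Complex.exp_add, add_neg_cancel, Complex.exp_zero]
  · show Complex.exp w.2 * Complex.exp (-w.2) = 1
    rw [← Complex.exp_add, add_neg_cancel, Complex.exp_zero]

lemma conn_T : IsConnected T := by
  have h : T = par '' Set.univ := by
    apply Set.Subset.antisymm
    · intro x hx
      have h0 : x 0 ≠ 0 := left_ne_zero_of_mul (hx.1.symm ▸ one_ne_zero)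
      have h2 : x 2 ≠ 0 := left_ne_zero_of_mul (hx.2.symm ▸ one_ne_zero)
      refine ⟨(Complex.log (x 0), Complex.log (x 2)), Set.mem_univ _, ?_⟩
      have e1 : x 1 = (x 0)⁻¹ := (inv_eq_of_mul_eq_one_right hx.1).symm
      have e3 : x 3 = (x 2)⁻¹ := (inv_eq_of_mul_eq_one_right hx.2).symm
      funext i
      fin_cases i
      · exact Complex.exp_log h0
      · show Complex.exp (-Complex.log (x 0)) = x 1
        rw [Complex.exp_neg, Complex.exp_log h0, e1]
      · exact Complex.exp_log h2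
      · show Complex.exp (-Complex.log (x 2)) = x 3
        rw [Complex.exp_neg, Complex.exp_log h2, e3]
    · rintro _ ⟨w, -, rfl⟩
      exact par_mem w
  rw [h]
  refine isConnected_univ.image _ ?_
  unfold par
  refine Continuous.continuousOn ?_
  refine continuous_pi fun i => ?_
  fin_cases i
  · exact Complex.continuous_exp.comp continuous_fst
  · exact Complex.continuous_exp.comp continuous_fst.neg
  · exact Complex.continuous_exp.comp continuous_snd
  · exact Complex.continuous_exp.comp continuous_snd.neg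

lemma hasDerivAt_eval {N : ℕ} (p : MvPolynomial (Fin N) ℂ) (c : ℂ → Fin N → ℂ) (c' : Fin N → ℂ)
    (s : ℂ) (h : ∀ i, HasDerivAt (fun t => c t i) (c' i) s) :
    HasDerivAt (fun t => eval (c t) p) (∑ i, eval (c s) (pderiv i p) * c' i) s := by
  classical
  induction p using MvPolynomial.induction_on with
  | C a =>
    simp only [pderiv_C, map_zero, zero_mul, Finset.sum_const_zero, eval_C]
    exact hasDerivAt_const s a
  | add p q hp hq =>
    simp only [map_add, add_mul, Finset.sum_add_distrib]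
    exact hp.add hq
  | mul_X p i hp =>
    simp only [map_mul, eval_X]
    have e : ∑ j, eval (c s) (pderiv j (p * X i)) * c' j =
        (∑ j, eval (c s) (pderiv j p) * c' j) * c s i + eval (c s) p * c' i := by
      have : ∀ j, eval (c s) (pderiv j (p * X i)) * c' j =
          (eval (c s) (pderiv j p) * c' j) * c s i +
            eval (c s) p * (if j = i then c' i else 0) := by
        intro j
        rw [Derivation.leibniz, pderiv_X, smul_eq_mul, smul_eq_mul, map_add, map_mul, map_mul,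
          eval_X]
        by_cases hj : j = i
        · subst hj
          rw [if_pos rfl, Pi.single_eq_same, map_one]
          ring
        · rw [if_neg hj, Pi.single_eq_of_ne (Ne.symm hj), map_zero]
          ring
      rw [Finset.sum_congr rfl fun j _ => this j, Finset.sum_add_distrib, ← Finset.sum_mul,
        ← Finset.mul_sum, Finset.sum_ite_eq' Finset.univ i fun _ => c' i, if_pos (Finset.mem_univ i)]
    rw [e]
    exact hp.mul (h i)

lemma one_mem : (![1, 1, 1, 1] : Fin 4 → ℂ) ∈ T := by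
  constructor <;> simp

lemma tangent_T : (![1, -1, 0, 0] : Fin 4 → ℂ) ∈ tangent T ![1, 1, 1, 1] := by
  intro p hp
  have h := hasDerivAt_eval p (fun t => par (t, 0)) ![1, -1, 0, 0] 0 (by
    intro i
    fin_cases i
    · show HasDerivAt (fun t : ℂ => Complex.exp t) 1 0
      simpa using Complex.hasDerivAt_exp 0
    · show HasDerivAt (fun t : ℂ => Complex.exp (-t)) (-1) 0
      simpa using (hasDerivAt_neg (0 : ℂ)).cexp
    · show HasDerivAt (fun t : ℂ => Complex.exp 0) 0 0
      exact hasDerivAt_const _ _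
    · show HasDerivAt (fun t : ℂ => Complex.exp (-0)) 0 0
      exact hasDerivAt_const _ _)
  have h0 : (fun t : ℂ => eval (par (t, 0)) p) = fun _ => 0 := by
    funext t
    exact hp _ (par_mem _)
  have h1 : par ((0 : ℂ), (0 : ℂ)) = ![1, 1, 1, 1] := by
    unfold par
    simp
  rw [h0] at h
  have := h.unique (hasDerivAt_const (0 : ℂ) (0 : ℂ))
  rw [← h1]
  exact this

/-- two polynomial functions of one variable with product 1 are constant -/
lemma const_of_mul (a b : Polynomial ℂ) (h : ∀ t, a.eval t * b.eval t = 1) (t : ℂ) :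
    a.eval t = a.eval 0 := by
  have h1 : a * b = 1 := by
    apply Polynomial.funext
    intro t
    rw [Polynomial.eval_mul, h t, Polynomial.eval_one]
  obtain ⟨c, -, hc⟩ := Polynomial.isUnit_iff.1 (IsUnit.of_mul_eq_one b h1)
  rw [← hc, Polynomial.eval_C, Polynomial.eval_C]

lemma exists_poly {N : ℕ} (x : Fin N → ℂ) (P : MvPolynomial (Fin (N + 1)) ℂ) :
    ∃ a : Polynomial ℂ, ∀ t, eval (Fin.cons t x : Fin (N + 1) → ℂ) P = a.eval t := by
  refine ⟨aeval (Fin.cons Polynomial.X (fun i => Polynomial.C (x i)) : Fin (N + 1) → Polynomial ℂ) P,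
    fun t => ?_⟩
  induction P using MvPolynomial.induction_on with
  | C a => simp
  | add p q hp hq => rw [map_add, map_add, Polynomial.eval_add, hp, hq]
  | mul_X p i hp =>
    rw [map_mul, map_mul, Polynomial.eval_mul, hp, eval_X, aeval_X]
    congr 1
    refine Fin.cases ?_ (fun j => ?_) i
    · simp
    · simp

/-- all the regular actions of the additive group on `T` are trivial -/
lemma ga_trivial {Φ : ℂ → (Fin 4 → ℂ) → (Fin 4 → ℂ)} (h : IsGaAction T Φ) (t : ℂ) {x : Fin 4 → ℂ}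
    (hx : x ∈ T) : Φ t x = x := by
  obtain ⟨h1, h2, -, P, hP⟩ := h
  have ha : ∀ i, ∃ a : Polynomial ℂ, ∀ t, Φ t x i = a.eval t := by
    intro i
    obtain ⟨a, ha⟩ := exists_poly x (P i)
    exact ⟨a, fun t => by rw [hP t x hx, ← ha t]⟩
  choose a ha using ha
  have e1 : ∀ t, (a 0).eval t * (a 1).eval t = 1 := fun t => by
    rw [← ha 0 t, ← ha 1 t]
    exact (h1 t x hx).1
  have e2 : ∀ t, (a 2).eval t * (a 3).eval t = 1 := fun t => by
    rw [← ha 2 t, ← ha 3 t]
    exact (h1 t x hx).2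
  have e1' : ∀ t, (a 1).eval t * (a 0).eval t = 1 := fun t => by rw [mul_comm, e1 t]
  have e2' : ∀ t, (a 3).eval t * (a 2).eval t = 1 := fun t => by rw [mul_comm, e2 t]
  have hc : ∀ i, Φ t x i = Φ 0 x i := by
    intro i
    rw [ha i t, ha i 0]
    fin_cases i
    · exact const_of_mul _ _ e1 t
    · exact const_of_mul _ _ e1' t
    · exact const_of_mul _ _ e2 t
    · exact const_of_mul _ _ e2' t
  rw [funext hc, h2 x hx]

lemma not_flexible : ¬ AlgFlexible T := by
  intro h
  have h1 := h _ one_mem tangent_T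
  have h2 : {v : Fin 4 → ℂ | ∃ Φ, IsGaAction T Φ ∧
      HasDerivAt (fun t => Φ t (![1, 1, 1, 1] : Fin 4 → ℂ)) v 0} ⊆ {0} := by
    rintro v ⟨Φ, hΦ, hv⟩
    have : (fun t => Φ t (![1, 1, 1, 1] : Fin 4 → ℂ)) = fun _ => ![1, 1, 1, 1] := by
      funext t
      exact ga_trivial hΦ t one_mem
    rw [this] at hv
    exact hv.unique (hasDerivAt_const _ _)
  have h3 := Submodule.span_mono h2 h1
  rw [Submodule.span_zero_singleton, Submodule.mem_bot] at h3
  have := congrFun h3 0
  simp at this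

/-- translations -/
def tr (a : Fin 4 → ℂ) (x : Fin 4 → ℂ) : Fin 4 → ℂ := fun i => a i * x i

lemma tr_mem {a x : Fin 4 → ℂ} (ha : a ∈ T) (hx : x ∈ T) : tr a x ∈ T := by
  constructor
  · show a 0 * x 0 * (a 1 * x 1) = 1
    rw [mul_mul_mul_comm, ha.1, hx.1, one_mul]
  · show a 2 * x 2 * (a 3 * x 3) = 1
    rw [mul_mul_mul_comm, ha.2, hx.2, one_mul]

lemma ne_zero_of_mem {a : Fin 4 → ℂ} (ha : a ∈ T) (i : Fin 4) : a i ≠ 0 := by
  have h1 := ha.1
  have h2 := ha.2
  intro h
  fin_cases i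
  · simp at h; simp [h] at h1
  · simp at h; simp [h] at h1
  · simp at h; simp [h] at h2
  · simp at h; simp [h] at h2

lemma inv_mem {a : Fin 4 → ℂ} (ha : a ∈ T) : (fun i => (a i)⁻¹) ∈ T := by
  constructor
  · show (a 0)⁻¹ * (a 1)⁻¹ = 1
    rw [← mul_inv, ha.1, inv_one]
  · show (a 2)⁻¹ * (a 3)⁻¹ = 1
    rw [← mul_inv, ha.2, inv_one]

lemma transitive_T : AlgTransitive T := by
  intro x hx y hy
  have hreg : ∀ a : Fin 4 → ℂ, RegularOn T (tr a) := fun a =>
    ⟨fun i => C (a i) * X i, fun z _ => by funext i; simp [tr]⟩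
  have ha : tr y (fun i => (x i)⁻¹) ∈ T := tr_mem hy (inv_mem hx)
  refine ⟨tr (tr y (fun i => (x i)⁻¹)), ⟨tr (fun i => (tr y (fun i => (x i)⁻¹) i)⁻¹),
    ⟨fun z hz => tr_mem ha hz, fun z hz => tr_mem (inv_mem ha) hz, fun z _ => ?_, fun z _ => ?_⟩,
    hreg _, hreg _⟩, ?_⟩
  · funext i
    exact inv_mul_cancel_left₀ (ne_zero_of_mem ha i) _
  · funext i
    exact mul_inv_cancel_left₀ (ne_zero_of_mem ha i) _
  · funext i
    show y i * (x i)⁻¹ * x i = y i
    rw [mul_assoc, inv_mul_cancel₀ (ne_zero_of_mem hx i), mul_one]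

/-- the first shear -/
noncomputable def sh1 (f : ℂ → ℂ) (x : Fin 4 → ℂ) : Fin 4 → ℂ :=
  ![x 0 * Complex.exp (f (x 2)), x 1 * Complex.exp (-f (x 2)), x 2, x 3]

/-- the second shear -/
noncomputable def sh2 (f : ℂ → ℂ) (x : Fin 4 → ℂ) : Fin 4 → ℂ :=
  ![x 0, x 1, x 2 * Complex.exp (f (x 0)), x 3 * Complex.exp (-f (x 0))]

lemma sh1_mem (f : ℂ → ℂ) {x : Fin 4 → ℂ} (hx : x ∈ T) : sh1 f x ∈ T := by
  refine ⟨?_, hx.2⟩
  show x 0 * Complex.exp (f (x 2)) * (x 1 * Complex.exp (-f (x 2))) = 1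
  rw [mul_mul_mul_comm, hx.1, ← Complex.exp_add, add_neg_cancel, Complex.exp_zero, one_mul]

lemma sh2_mem (f : ℂ → ℂ) {x : Fin 4 → ℂ} (hx : x ∈ T) : sh2 f x ∈ T := by
  refine ⟨hx.1, ?_⟩
  show x 2 * Complex.exp (f (x 0)) * (x 3 * Complex.exp (-f (x 0))) = 1
  rw [mul_mul_mul_comm, hx.2, ← Complex.exp_add, add_neg_cancel, Complex.exp_zero, one_mul]

lemma sh1_inv (f : ℂ → ℂ) (x : Fin 4 → ℂ) : sh1 (fun z => -f z) (sh1 f x) = x := by
  funext i
  fin_cases i
  · show x 0 * Complex.exp (f (x 2)) * Complex.exp (-f (x 2)) = x 0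
    rw [mul_assoc, ← Complex.exp_add, add_neg_cancel, Complex.exp_zero, mul_one]
  · show x 1 * Complex.exp (-f (x 2)) * Complex.exp (- -f (x 2)) = x 1
    rw [mul_assoc, ← Complex.exp_add, add_neg_cancel, Complex.exp_zero, mul_one]
  · rfl
  · rfl

lemma sh2_inv (f : ℂ → ℂ) (x : Fin 4 → ℂ) : sh2 (fun z => -f z) (sh2 f x) = x := by
  funext i
  fin_cases i
  · rfl
  · rfl
  · show x 2 * Complex.exp (f (x 0)) * Complex.exp (-f (x 0)) = x 2
    rw [mul_assoc, ← Complex.exp_add, add_neg_cancel, Complex.exp_zero, mul_one]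
  · show x 3 * Complex.exp (-f (x 0)) * Complex.exp (- -f (x 0)) = x 3
    rw [mul_assoc, ← Complex.exp_add, add_neg_cancel, Complex.exp_zero, mul_one]

lemma sh1_inv' (f : ℂ → ℂ) (x : Fin 4 → ℂ) : sh1 f (sh1 (fun z => -f z) x) = x := by
  have h := sh1_inv (fun z => -f z) x
  simpa only [neg_neg] using h

lemma sh2_inv' (f : ℂ → ℂ) (x : Fin 4 → ℂ) : sh2 f (sh2 (fun z => -f z) x) = x := by
  have h := sh2_inv (fun z => -f z) x
  simpa only [neg_neg] using h

lemma diff_coord (i : Fin 4) : Differentiable ℂ (fun x : Fin 4 → ℂ => x i) := by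
  fun_prop

lemma diff_sh1 {f : ℂ → ℂ} (hf : Differentiable ℂ f) : Differentiable ℂ (sh1 f) := by
  rw [differentiable_pi]
  intro i
  have h : Differentiable ℂ (fun x : Fin 4 → ℂ => f (x 2)) := hf.comp (diff_coord 2)
  fin_cases i
  · exact (diff_coord 0).mul h.cexp
  · exact (diff_coord 1).mul h.neg.cexp
  · exact diff_coord 2
  · exact diff_coord 3

lemma diff_sh2 {f : ℂ → ℂ} (hf : Differentiable ℂ f) : Differentiable ℂ (sh2 f) := by
  rw [differentiable_pi]
  intro i
  have h : Differentiable ℂ (fun x : Fin 4 → ℂ => f (x 0)) := hf.comp (diff_coord 0)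
  fin_cases i
  · exact diff_coord 0
  · exact diff_coord 1
  · exact (diff_coord 2).mul h.cexp
  · exact (diff_coord 3).mul h.neg.cexp

lemma hol_of {F : (Fin 4 → ℂ) → (Fin 4 → ℂ)} (h : Differentiable ℂ F) : HolomorphicOn T F :=
  fun x _ => ⟨Set.univ, isOpen_univ, Set.mem_univ x, F, h.differentiableOn, fun _ _ => rfl⟩

/-- the tame set -/
noncomputable def pt (n : ℕ) : Fin 4 → ℂ := ![1, 1, (n : ℂ) + 1, ((n : ℂ) + 1)⁻¹]

lemma cast_ne (n : ℕ) : (n : ℂ) + 1 ≠ 0 := by exact_mod_cast Nat.succ_ne_zero n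

lemma pt_mem (n : ℕ) : pt n ∈ T := by
  constructor
  · show (1 : ℂ) * 1 = 1
    rw [one_mul]
  · exact mul_inv_cancel₀ (cast_ne n)

lemma pt_inj {m n : ℕ} (h : pt m = pt n) : m = n := by
  have h2 : (m : ℂ) + 1 = (n : ℂ) + 1 := congrFun h 2
  exact_mod_cast add_right_cancel h2

lemma closed_pt : IsClosedEmbedding pt := by
  have h1 : IsClosedEmbedding (fun n : ℕ => (n : ℂ) + 1) := by
    have h2 : IsClosedEmbedding (fun n : ℕ => (((n : ℝ)) : ℂ)) :=
      Complex.isometry_ofReal.isClosedEmbedding.comp Nat.isClosedEmbedding_coe_real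
    have h3 := (Homeomorph.addRight (1 : ℂ)).isClosedEmbedding.comp h2
    have h4 : (fun n : ℕ => (n : ℂ) + 1) =
        (Homeomorph.addRight (1 : ℂ)) ∘ (fun n : ℕ => (((n : ℝ)) : ℂ)) := by
      funext n
      simp
    rw [h4]
    exact h3
  have hc : Continuous pt := continuous_of_discreteTopology
  have hp : IsProperMap pt := isProperMap_of_comp_of_t2 hc (continuous_apply (2 : Fin 4))
    (show IsProperMap (fun n : ℕ => (n : ℂ) + 1) from h1.isProperMap)
  exact IsClosedEmbedding.of_continuous_injective_isClosedMap hc (fun m n h => pt_inj h)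
    hp.isClosedMap

lemma tame_T : IsTame T (Set.range pt) := by
  classical
  refine ⟨?_, closed_pt.isClosed_range, ?_, Set.infinite_range_of_injective fun m n h => pt_inj h,
    fun f hf => ?_⟩
  · rintro _ ⟨n, rfl⟩
    exact pt_mem n
  · exact (closed_pt.isEmbedding.toHomeomorph.symm.isEmbedding).discreteTopology
  · have hs : ∀ n, ∃ m, pt m = (f ⟨pt n, n, rfl⟩ : Fin 4 → ℂ) := fun n => (f ⟨pt n, n, rfl⟩).2
    choose σ hσ using hs
    have hinj : Function.Injective σ := by
      intro m n h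
      have h1 : f ⟨pt m, m, rfl⟩ = f ⟨pt n, n, rfl⟩ := by
        apply Subtype.ext
        rw [← hσ m, ← hσ n, h]
      exact pt_inj (congrArg Subtype.val (hf h1))
    obtain ⟨u, hu, hu'⟩ := Pool.Agent.R229.Interp.interp fun n => Complex.log n
    obtain ⟨g, hg, hg'⟩ := Pool.Agent.R229.Interp.interp fun n =>
      Complex.log ((σ (n - 1) : ℂ) + 1) - Complex.log n
    obtain ⟨k, hk, hk'⟩ := Pool.Agent.R229.Interp.interp fun n =>
      if h : ∃ m, σ m + 1 = n then -Complex.log ((h.choose : ℂ) + 1) else 0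
    refine ⟨fun x => sh1 k (sh2 g (sh1 u x)),
      ⟨fun x => sh1 (fun z => -u z) (sh2 (fun z => -g z) (sh1 (fun z => -k z) x)), ⟨?_, ?_, ?_, ?_⟩,
        hol_of ?_, hol_of ?_⟩, ?_⟩
    · exact fun x hx => sh1_mem _ (sh2_mem _ (sh1_mem _ hx))
    · exact fun x hx => sh1_mem _ (sh2_mem _ (sh1_mem _ hx))
    · intro x _
      show sh1 (fun z => -u z) (sh2 (fun z => -g z) (sh1 (fun z => -k z) (sh1 k (sh2 g (sh1 u x))))) = x
      rw [sh1_inv, sh2_inv, sh1_inv]
    · intro x _
      show sh1 k (sh2 g (sh1 u (sh1 (fun z => -u z) (sh2 (fun z => -g z) (sh1 (fun z => -k z) x))))) = x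
      rw [sh1_inv', sh2_inv', sh1_inv']
    · exact (diff_sh1 hk).comp ((diff_sh2 hg).comp (diff_sh1 hu))
    · exact (diff_sh1 hu.neg).comp ((diff_sh2 hg.neg).comp (diff_sh1 hk.neg))
    · rintro ⟨_, n, rfl⟩
      have eu : u ((n : ℂ) + 1) = Complex.log ((n : ℂ) + 1) := by
        have := hu' (n + 1)
        push_cast at this
        exact this
      have eg : g ((n : ℂ) + 1) = Complex.log ((σ n : ℂ) + 1) - Complex.log ((n : ℂ) + 1) := by
        have := hg' (n + 1)
        rw [Nat.add_sub_cancel] at this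
        push_cast at this
        exact this
      have ek : k ((σ n : ℂ) + 1) = -Complex.log ((n : ℂ) + 1) := by
        have h1 : ∃ m, σ m + 1 = σ n + 1 := ⟨n, rfl⟩
        have h2 := hk' (σ n + 1)
        rw [dif_pos h1] at h2
        have h3 : h1.choose = n := hinj (Nat.succ_injective h1.choose_spec)
        rw [h3] at h2
        push_cast at h2
        exact h2
      have h1 : sh1 u (pt n) = ![(n : ℂ) + 1, ((n : ℂ) + 1)⁻¹, (n : ℂ) + 1, ((n : ℂ) + 1)⁻¹] := by
        show ![(1 : ℂ) * Complex.exp (u ((n : ℂ) + 1)), 1 * Complex.exp (-u ((n : ℂ) + 1)),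
          (n : ℂ) + 1, ((n : ℂ) + 1)⁻¹] = _
        rw [eu, Complex.exp_neg, Complex.exp_log (cast_ne n), one_mul, one_mul]
      have h2 : sh2 g ![(n : ℂ) + 1, ((n : ℂ) + 1)⁻¹, (n : ℂ) + 1, ((n : ℂ) + 1)⁻¹] =
          ![(n : ℂ) + 1, ((n : ℂ) + 1)⁻¹, (σ n : ℂ) + 1, ((σ n : ℂ) + 1)⁻¹] := by
        show ![(n : ℂ) + 1, ((n : ℂ) + 1)⁻¹, ((n : ℂ) + 1) * Complex.exp (g ((n : ℂ) + 1)),
          ((n : ℂ) + 1)⁻¹ * Complex.exp (-g ((n : ℂ) + 1))] = _
        have e1 : ((n : ℂ) + 1) * Complex.exp (g ((n : ℂ) + 1)) = (σ n : ℂ) + 1 := by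
          rw [eg, Complex.exp_sub, Complex.exp_log (cast_ne n), Complex.exp_log (cast_ne _)]
          exact mul_div_cancel₀ _ (cast_ne n)
        have e2 : ((n : ℂ) + 1)⁻¹ * Complex.exp (-g ((n : ℂ) + 1)) = ((σ n : ℂ) + 1)⁻¹ := by
          rw [Complex.exp_neg, ← mul_inv, e1]
        rw [e1, e2]
      have h3 : sh1 k ![(n : ℂ) + 1, ((n : ℂ) + 1)⁻¹, (σ n : ℂ) + 1, ((σ n : ℂ) + 1)⁻¹] =
          pt (σ n) := by
        show ![((n : ℂ) + 1) * Complex.exp (k ((σ n : ℂ) + 1)),
          ((n : ℂ) + 1)⁻¹ * Complex.exp (-k ((σ n : ℂ) + 1)), (σ n : ℂ) + 1,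
          ((σ n : ℂ) + 1)⁻¹] = _
        rw [ek, neg_neg, Complex.exp_neg, Complex.exp_log (cast_ne n), mul_inv_cancel₀ (cast_ne n),
          inv_mul_cancel₀ (cast_ne n)]
        rfl
      show sh1 k (sh2 g (sh1 u (pt n))) = f ⟨pt n, n, rfl⟩
      rw [h1, h2, h3, hσ n]

end proof

/-- **Theorem** (negative answer to the first question). There is a closed connected algebraic subset
`X` of some `ℂ^N`, smooth of dimension `d`, with a tame set and with a transitive group of algebraic
automorphisms, on which all regular actions of the additive group are trivial and which is not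
algebraically flexible. -/
theorem result :
    ∃ (N d : ℕ) (X : Set (Fin N → ℂ)), IsSmoothAffine d X ∧ IsConnected X ∧ (∃ A, IsTame X A) ∧
      AlgTransitive X ∧ (∀ Φ, IsGaAction X Φ → ∀ t, ∀ x ∈ X, Φ t x = x) ∧ ¬ AlgFlexible X :=
  ⟨4, 2, T, smooth_T, conn_T, ⟨_, tame_T⟩, transitive_T, fun _ h t _ hx => ga_trivial h t hx,
    not_flexible⟩

end Pool.Agent.Results.MP_acc6f5_ag.TorusNotFlexible
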